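import Pool.Agent.helper79.SX.Spec

/-!
# Project sx:, module DAT
-/

set_option autoImplicit false

open Finset ArithmeticFunction

namespace Pool.Agent.SX

theorem DAT_frc {β : Type} (n : ℕ) (f : ℕ → β) : frc n f = f n := by
  cases n <;> rfl

theorem DAT_sumI (M s : ℕ) : ∀ f n acc : ℕ, sumI M s f n acc = true →
    acc + ∑ j ∈ range f, (if Nat.gcd (n + j) M = 1 then 35184372088832 / (n + j) + 1 else 0) ≤ s := by
  intro f
  induction f with
  | zero =>
    intro n acc h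
    have h' : Nat.ble acc s = true := h
    simpa using Nat.le_of_ble_eq_true h'
  | succ f ih =>
    intro n acc h
    have h1 : frc (acc + cond (Nat.beq (Nat.gcd n M) 1) (35184372088832 / n + 1) 0) (fun acc' =>
      frc (n + 1) fun n' => sumI M s f n' acc') = true := h
    rw [DAT_frc, DAT_frc] at h1
    have h2 := ih _ _ h1
    rw [Finset.sum_range_succ']
    have h3 : cond (Nat.beq (Nat.gcd n M) 1) (35184372088832 / n + 1) 0 =
        if Nat.gcd n M = 1 then 35184372088832 / n + 1 else 0 := by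
      by_cases hg : Nat.gcd n M = 1
      · rw [if_pos hg, hg]
        rfl
      · rw [if_neg hg]
        have : Nat.beq (Nat.gcd n M) 1 = false := by
          rw [← Bool.not_eq_true]
          intro h4
          exact hg (Nat.eq_of_beq_eq_true h4)
        rw [this]
        rfl
    rw [h3] at h2
    have h4 : ∀ j ∈ range f, (if Nat.gcd (n + 1 + j) M = 1 then 35184372088832 / (n + 1 + j) + 1 else 0) =
        (if Nat.gcd (n + (j + 1)) M = 1 then 35184372088832 / (n + (j + 1)) + 1 else 0) := by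
      intro j _
      rw [show n + 1 + j = n + (j + 1) by omega]
    rw [Finset.sum_congr rfl h4] at h2
    rw [Nat.add_zero]
    omega

theorem DAT (hSAD : SAD_stmt) : DAT_stmt := by
  intro h lo hi s _ hc
  obtain ⟨-, hBl, -⟩ := hSAD
  unfold chkD at hc
  rw [DAT_frc] at hc
  have hc1 : (lo - 1) ^ 10 < 2 ^ h ∧ 2 ^ (h + 1) ≤ hi ^ 10 ∧
      sumI (Nat.factorial (min (lo - 1) 511)) s (hi - lo) lo 0 = true := by
    have h1 : (Nat.blt ((lo - 1) ^ 10) (2 ^ h) && (Nat.ble (2 ^ (h + 1)) (hi ^ 10) &&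
      sumI (Nat.factorial (min (lo - 1) 511)) s (hi - lo) lo 0)) = true := hc
    rw [Bool.and_eq_true, Bool.and_eq_true] at h1
    exact ⟨Nat.le_of_ble_eq_true h1.1, Nat.le_of_ble_eq_true h1.2.1, h1.2.2⟩
  obtain ⟨h1, h2, h3⟩ := hc1
  have h4 := DAT_sumI _ _ _ _ _ h3
  rw [zero_add] at h4
  set M := Nat.factorial (min (lo - 1) 511) with hM
  let F : ℕ → ℕ := fun m => if Nat.gcd m M = 1 then 35184372088832 / m + 1 else 0
  have h5 : ∑ m ∈ Ico lo hi, F m ≤ s := by
    rw [Finset.sum_Ico_eq_sum_range]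
    exact h4
  have hsub : Bl h (h + 1) ⊆ Ico lo hi := by
    intro p hp
    rw [hBl] at hp
    obtain ⟨-, -, hp3, hp4⟩ := hp
    rw [Finset.mem_Ico]
    have h6 : lo - 1 < p := lt_of_pow_lt_pow_left₀ 10 (Nat.zero_le _) (lt_of_lt_of_le h1 hp3)
    have h7 : p < hi := lt_of_pow_lt_pow_left₀ 10 (Nat.zero_le _) (lt_of_lt_of_le hp4 h2)
    omega
  have hterm : ∀ p ∈ Bl h (h + 1), (2 / p : ℝ) ≤ (F p : ℝ) / 2 ^ 44 := by
    intro p hp
    have hp' := Finset.mem_Ico.1 (hsub hp)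
    rw [hBl] at hp
    obtain ⟨hpp, hp2, hp3, -⟩ := hp
    have h6 : lo - 1 < p := lt_of_pow_lt_pow_left₀ 10 (Nat.zero_le _) (lt_of_lt_of_le h1 hp3)
    have hg : Nat.gcd p M = 1 := by
      refine (Nat.Prime.coprime_iff_not_dvd hpp).2 ?_
      rw [hM, hpp.dvd_factorial]
      have := Nat.min_le_left (lo - 1) 511
      omega
    have h7 : F p = 35184372088832 / p + 1 := if_pos hg
    have h8 : 35184372088832 < p * (35184372088832 / p + 1) := Nat.lt_mul_div_succ _ hpp.pos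
    rw [← h7] at h8
    have h9 : (35184372088832 : ℝ) < (p : ℝ) * (F p : ℝ) := by exact_mod_cast h8
    have hp0 : (0 : ℝ) < p := by exact_mod_cast hpp.pos
    rw [div_le_div_iff₀ hp0 (by norm_num)]
    linarith
  calc sig h (h + 1) = ∑ p ∈ Bl h (h + 1), (2 / p : ℝ) := rfl
    _ ≤ ∑ p ∈ Bl h (h + 1), (F p : ℝ) / 2 ^ 44 := Finset.sum_le_sum hterm
    _ ≤ ∑ p ∈ Ico lo hi, (F p : ℝ) / 2 ^ 44 :=
        Finset.sum_le_sum_of_subset_of_nonneg hsub (fun _ _ _ => by positivity)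
    _ = ((∑ p ∈ Ico lo hi, F p : ℕ) : ℝ) / 2 ^ 44 := by
        rw [← Finset.sum_div, Nat.cast_sum]
    _ ≤ (s : ℝ) / 2 ^ 44 := by
        have : ((∑ p ∈ Ico lo hi, F p : ℕ) : ℝ) ≤ (s : ℝ) := by exact_mod_cast h5
        gcongr

end Pool.Agent.SX
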