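import Pool.Agent.helper79.SX.Spec

/-!
# Project sx:, module LPA
-/

set_option autoImplicit false

open Finset ArithmeticFunction

namespace Pool.Agent.SX

theorem LPA_log (w : ℝ) (hw : 2 ^ 18 ≤ w) : Real.log w ≤ 0.0002 * w := by
  have hw0 : (0 : ℝ) < w := lt_of_lt_of_le (by norm_num) hw
  have h1 : Real.log (w / 2 ^ 18) ≤ w / 2 ^ 18 - 1 := Real.log_le_sub_one_of_pos (by positivity)
  rw [Real.log_div hw0.ne' (by norm_num), Real.log_pow] at h1
  have h2 := Real.log_two_lt_d9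
  norm_num at h1 hw
  linarith

theorem LPA_theta (x : ℝ) : Chebyshev.theta x =
    ∑ p ∈ (Finset.Icc 0 ⌊x⌋₊).filter Nat.Prime, Real.log p := by
  rw [Chebyshev.theta_eq_sum_Icc]

theorem LPA_part (hCH5 : CH5_stmt) (hCH6 : CH6_stmt) (w t : ℝ) (hw : 2 ^ 18 ≤ w) (i : ℕ)
    (hi : w ≤ i) : ∑ j ∈ (pc w t).filter (fun j => j ≤ i), Real.log j ≤
      1087 / 1000 * ((i : ℝ) - w) + 170 / 1000 * w := by
  have hw0 : (0 : ℝ) < w := lt_of_lt_of_le (by norm_num) hw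
  have h5 := hCH5 i (hw.trans hi)
  have h6 := hCH6 w hw
  have h7 := LPA_log w hw
  have h8 := Chebyshev.theta_le_psi (i : ℝ)
  set C := (Finset.Icc 0 ⌊w⌋₊).filter Nat.Prime with hC
  have hθw : Chebyshev.theta w ≤ ∑ p ∈ C.erase ⌊w⌋₊, Real.log p + Real.log w := by
    rw [LPA_theta w, ← hC]
    have hfl : ((⌊w⌋₊ : ℕ) : ℝ) ≤ w := Nat.floor_le hw0.le
    have hfl1 : 1 ≤ ⌊w⌋₊ := (Nat.one_le_floor_iff w).2 (by norm_num at hw; linarith)
    have hlog : Real.log ((⌊w⌋₊ : ℕ) : ℝ) ≤ Real.log w :=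
      Real.log_le_log (by exact_mod_cast hfl1) hfl
    by_cases hmem : ⌊w⌋₊ ∈ C
    · rw [← Finset.sum_erase_add _ _ hmem]
      linarith
    · rw [Finset.erase_eq_of_notMem hmem]
      have : 0 ≤ Real.log w := Real.log_nonneg (by norm_num at hw; linarith)
      linarith
  have hdisj : Disjoint ((pc w t).filter (fun j => j ≤ i)) (C.erase ⌊w⌋₊) := by
    rw [Finset.disjoint_left]
    intro p hp hp'
    rw [Finset.mem_filter, pc, Finset.mem_filter] at hp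
    rw [Finset.mem_erase, hC, Finset.mem_filter, Finset.mem_Icc] at hp'
    have h1 : p < ⌊w⌋₊ := lt_of_le_of_ne hp'.2.1.2 hp'.1
    have h2 : (p : ℝ) < ((⌊w⌋₊ : ℕ) : ℝ) := by exact_mod_cast h1
    have hfl : ((⌊w⌋₊ : ℕ) : ℝ) ≤ w := Nat.floor_le hw0.le
    have := hp.1.2.2
    linarith
  have hsub : (pc w t).filter (fun j => j ≤ i) ∪ C.erase ⌊w⌋₊ ⊆
      (Finset.Icc 0 ⌊((i : ℕ) : ℝ)⌋₊).filter Nat.Prime := by
    intro p hp
    rw [Finset.mem_filter, Finset.mem_Icc, Nat.floor_natCast]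
    rcases Finset.mem_union.1 hp with hp | hp
    · rw [Finset.mem_filter, pc, Finset.mem_filter] at hp
      exact ⟨⟨Nat.zero_le _, hp.2⟩, hp.1.2.1⟩
    · rw [Finset.mem_erase, hC, Finset.mem_filter, Finset.mem_Icc] at hp
      have hfl : ((⌊w⌋₊ : ℕ) : ℝ) ≤ w := Nat.floor_le hw0.le
      have h1 : ⌊w⌋₊ ≤ i := by
        have : ((⌊w⌋₊ : ℕ) : ℝ) ≤ (i : ℝ) := hfl.trans hi
        exact_mod_cast this
      exact ⟨⟨Nat.zero_le _, hp.2.1.2.trans h1⟩, hp.2.2⟩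
  have hsum : ∑ j ∈ (pc w t).filter (fun j => j ≤ i), Real.log j +
      ∑ p ∈ C.erase ⌊w⌋₊, Real.log p ≤ Chebyshev.theta (i : ℝ) := by
    rw [LPA_theta, ← Finset.sum_union hdisj]
    refine Finset.sum_le_sum_of_subset_of_nonneg hsub (fun p _ _ => ?_)
    exact Real.log_natCast_nonneg p
  linarith

theorem LPA (hABL : ABL_stmt) (hCH5 : CH5_stmt) (hCH6 : CH6_stmt) : LPA_stmt := by
  intro w t hw hwt
  have hw0 : (0 : ℝ) < w := lt_of_lt_of_le (by norm_num) hw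
  have ht0 : (0 : ℝ) < t := hw0.trans_le hwt
  have h := hABL (pc w t) (fun i => (i : ℝ)) (fun p => Real.log p) w t (1087 / 1000)
    (170 / 1000 * w) (fun s => 1 / s) hwt (by norm_num) (by positivity)
    (fun a _ b _ hab => Nat.cast_lt.2 hab) ?_ ?_ ?_ ?_
  · have h1 : ∑ p ∈ pc w t, Real.log p / p = ∑ i ∈ pc w t, Real.log i * (1 / (i : ℝ)) := by
      refine Finset.sum_congr rfl fun p _ => ?_
      rw [mul_one_div]
    rw [h1]
    refine h.trans (le_of_eq ?_)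
    rw [integral_one_div_of_pos hw0 ht0, mul_assoc (170 / 1000 : ℝ) w (1 / w),
      mul_one_div_cancel hw0.ne', mul_one]
  · intro i hi
    rw [pc, Finset.mem_filter, Finset.mem_range] at hi
    refine ⟨hi.2.2, ?_⟩
    have h1 : i ≤ ⌊t⌋₊ := by omega
    exact (Nat.le_floor_iff ht0.le).1 h1
  · intro a ha b hb hab
    exact one_div_le_one_div_of_le (hw0.trans_le ha.1) hab
  · intro s hs
    exact one_div_nonneg.2 (hw0.le.trans hs.1)
  · intro i hi
    rw [pc, Finset.mem_filter, Finset.mem_range] at hi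
    exact LPA_part hCH5 hCH6 w t hw i hi.2.2

end Pool.Agent.SX
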